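import Mathlib
import Pool.Agent.Helper75.HC.Lower

/-!
# Martin's Axiom implies `cov(σ𝒢₀) = 𝔠`

Under Martin's Axiom no family of fewer than `𝔠` members of `σ𝒢₀` (the `σ`-ideal generated by the
minimal dense `G_δ`-sets of the Hilbert cube) covers the Hilbert cube.
-/

set_option autoImplicit false

namespace Pool.Agent.Results.MP_1496d7_lc.MartinCovering

open Set Cardinal Pool.Agent.Helper75.HC

theorem result (MA : MartinsAxiom) (ℱ : Set (Set Cube)) (hℱ : ℱ ⊆ SigmaG0)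
    (hcov : ⋃₀ ℱ = Set.univ) : Cardinal.continuum ≤ Cardinal.mk ℱ := by
  classical
  by_contra hlt
  push Not at hlt
  choose 𝒢 h𝒢c h𝒢m h𝒢s using fun A : ℱ => hℱ A.2
  set 𝒯 : Set (Set Cube) := ⋃ A : ℱ, 𝒢 A with h𝒯
  have h𝒯m : ∀ G ∈ 𝒯, IsMinimalDenseGδ G := by
    intro G hG
    obtain ⟨A, hA⟩ := mem_iUnion.1 hG
    exact h𝒢m A G hA
  have hcard : Cardinal.mk 𝒯 < Cardinal.continuum := by
    have h1 : Cardinal.mk 𝒯 ≤ Cardinal.mk ℱ * Cardinal.aleph0 := by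
      refine (Cardinal.mk_iUnion_le_sum_mk).trans ?_
      calc Cardinal.sum (fun A : ℱ => Cardinal.mk (𝒢 A)) ≤ Cardinal.sum (fun _ : ℱ => Cardinal.aleph0) :=
            Cardinal.sum_le_sum _ _ fun A => (h𝒢c A).le_aleph0
        _ = Cardinal.mk ℱ * Cardinal.aleph0 := by simp
    exact h1.trans_lt (Cardinal.mul_lt_of_lt Cardinal.aleph0_le_continuum hlt Cardinal.aleph0_lt_continuum)
  obtain ⟨x, hx⟩ := lower MA 𝒯 h𝒯m hcard
  apply hx
  have hx1 : x ∈ ⋃₀ ℱ := by rw [hcov]; exact mem_univ x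
  obtain ⟨A, hA, hxA⟩ := hx1
  obtain ⟨G, hG, hxG⟩ := h𝒢s ⟨A, hA⟩ hxA
  exact ⟨G, mem_iUnion.2 ⟨⟨A, hA⟩, hG⟩, hxG⟩

end Pool.Agent.Results.MP_1496d7_lc.MartinCovering
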